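import Mathlib
import Pool.Agent.P.MP_2c7dbf_nt.SharpB

namespace Pool.Agent.Results.MP_2c7dbf_nt.SharpRatio

/-- The least value of `|G| / k`, over all `k ≥ 1` and all finite non-abelian groups `G` with an
injective map from `{1, …, k}` to `G` that respects the products `x y ≤ k`, is `6 / 5`. -/
theorem result :
    IsLeast {r : ℚ | ∃ (k : ℕ) (G : Type) (_ : Group G) (_ : Fintype G) (φ : ℕ → G),
      1 ≤ k ∧ Set.InjOn φ (Set.Icc 1 k) ∧
      (∀ x ∈ Set.Icc 1 k, ∀ y ∈ Set.Icc 1 k, x * y ≤ k → φ (x * y) = φ x * φ y) ∧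
      (∃ a b : G, a * b ≠ b * a) ∧ r = (Fintype.card G : ℚ) / k} (6 / 5) := by
  constructor
  · refine ⟨5, DihedralGroup 3, inferInstance, inferInstance,
      fun n => if n = 2 then .r 1 else if n = 3 then .sr 0 else if n = 4 then .r 2
        else if n = 5 then .sr 1 else 1, by norm_num, ?_, ?_, ⟨.r 1, .sr 0, by decide⟩, ?_⟩
    · rintro x ⟨hx1, hx2⟩ y ⟨hy1, hy2⟩
      interval_cases x <;> interval_cases y <;> decide
    · rintro x ⟨hx1, hx2⟩ y ⟨hy1, hy2⟩
      interval_cases x <;> interval_cases y <;> decide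
    · rw [DihedralGroup.card]
      norm_num
  · rintro r ⟨k, G, _, _, φ, hk, hinj, hmul, ⟨a, b, hab⟩, rfl⟩
    have hk' : (0 : ℚ) < k := by exact_mod_cast hk
    rw [div_le_div_iff₀ (by norm_num) hk']
    by_contra h
    have h1 : (Fintype.card G : ℚ) * 5 < 6 * k := not_le.1 h
    have h2 : Fintype.card G * 5 < 6 * k := by exact_mod_cast h1
    refine hab (Pool.Agent.P.MP_2c7dbf_nt.comm_of_ratio hinj (fun x y hx hy hxy => ?_)
      (by omega) a b)
    exact hmul x ⟨hx, (Nat.le_mul_of_pos_right x hy).trans hxy⟩ y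
      ⟨hy, (Nat.le_mul_of_pos_left y hx).trans hxy⟩ hxy

end Pool.Agent.Results.MP_2c7dbf_nt.SharpRatio
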